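import Pool.Agent.LE.StmtsQF

/-!
# The pre-kills of a site `o` (block KIL of AND2B): definitions

A run kills the running sites `e c`, `c : ι` (noise and clock only there). `G` is the resolvent of the
whole network, `κ` the imaginary parts of the energies, `o` the frozen site which will be released.
`a v` is the part of the current out of `o` which is absorbed at `v ≠ o`.
-/

set_option autoImplicit false

open scoped BigOperators Matrix

noncomputable section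

namespace Pool.Agent.KIL

open Pool.Agent.LE.QF (HJ HM gG LL dC)

variable {ι X : Type} [Fintype ι] [DecidableEq ι] [Fintype X] [DecidableEq X]

/-- the jets in a kill run: `∂_c G = - G E_c G`, `LL G = G μ G` with `μ c = G(e c, e c) - m(e c)`, the
absorption `kp` falls with the speed `g` at the killed sites and is constant otherwise -/
structure KJ (e : ι → X) (q : ℝ × (ι → ℝ)) (Gm : ℝ × (ι → ℝ) → Matrix X X ℂ) (kp : ℝ → X → ℝ)
    (G : Matrix X X ℂ) (κ g : X → ℝ) (μ : ι → ℂ) : Prop where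
  inj : Function.Injective e
  hG : HM Gm q G (fun c => gG G (e c)) (fun a b => ∑ c, G a (e c) * μ c * G (e c) b)
  hs : ∀ a b, G a b = G b a
  hk : ∀ v, ContDiffAt ℝ 2 (fun t => kp t v) q.1 ∧ kp q.1 v = κ v
  hd : ∀ c, deriv (fun t => kp t (e c)) q.1 = -g (e c)
  hd0 : ∀ v, v ∉ Set.range e → deriv (fun t => kp t v) q.1 = 0

/-- the current out of `o` absorbed at `v` -/
def nn (κ : X → ℝ) (G : Matrix X X ℂ) (o v : X) : ℝ := κ v * ‖G v o‖ ^ 2

/-- the current out of `o` -/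
def gam (κ : X → ℝ) (G : Matrix X X ℂ) (o : X) : ℝ := ∑ v ∈ Finset.univ.erase o, nn κ G o v

/-- the part of the current out of `o` which is absorbed at `v` -/
def aa (κ : X → ℝ) (G : Matrix X X ℂ) (o v : X) : ℝ := nn κ G o v / gam κ G o

/-- minus the derivative of `nn v` divided by `gam` -/
def xx (e : ι → X) (κ : X → ℝ) (G : Matrix X X ℂ) (o v : X) (c : ι) : ℝ :=
  2 * κ v * ((starRingEnd ℂ) (G v o) * (G v (e c) * G (e c) o)).re / gam κ G o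

/-- minus the derivative of `log gam` -/
def dd (e : ι → X) (κ : X → ℝ) (G : Matrix X X ℂ) (o : X) (c : ι) : ℝ :=
  ∑ v ∈ Finset.univ.erase o, xx e κ G o v c

/-- the current emitted at `e c` and absorbed at `v` -/
def ee (e : ι → X) (κ : X → ℝ) (G : Matrix X X ℂ) (o v : X) (c : ι) : ℝ :=
  κ v * ‖G v (e c) * G (e c) o‖ ^ 2 / gam κ G o

/-- the speed of the kill of `e c`, seen from `o` -/
def AA (e : ι → X) (κ g : X → ℝ) (G : Matrix X X ℂ) (o : X) (c : ι) : ℝ :=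
  g (e c) * ‖G (e c) o‖ ^ 2 / gam κ G o

/-- the error of the gauge -/
def er (e : ι → X) (κ : X → ℝ) (G : Matrix X X ℂ) (μ : ι → ℂ) (o v : X) : ℝ :=
  2 * κ v * ((starRingEnd ℂ) (G v o) * ∑ c, G v (e c) * μ c * G (e c) o).re / gam κ G o

/-- the derivative of `aa` -/
def da (e : ι → X) (κ : X → ℝ) (G : Matrix X X ℂ) (o v : X) (c : ι) : ℝ :=
  -xx e κ G o v c + aa κ G o v * dd e κ G o c

/-- `LL` of `aa` -/
def la (e : ι → X) (κ g : X → ℝ) (G : Matrix X X ℂ) (μ : ι → ℂ) (o v : X) : ℝ :=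
  (∑ c, ee e κ G o v c) - (∑ c, if e c = v then AA e κ g G o c else 0) + er e κ G μ o v -
    aa κ G o v * ((∑ w ∈ Finset.univ.erase o, ((∑ c, ee e κ G o w c) + er e κ G μ o w)) -
      ∑ c, AA e κ g G o c) -
    (∑ c, xx e κ G o v c * dd e κ G o c) + aa κ G o v * ∑ c, dd e κ G o c ^ 2

/-- a good point of a kill run -/
structure KGd (e : ι → X) (G : Matrix X X ℂ) (κ g : X → ℝ) (μ : ι → ℂ) (Rn : Finset X) (o : X)
    (κs g₀ δ Lc : ℝ) : Prop where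
  hs : ∀ a b, G a b = G b a
  hw : ∀ a b, ∑ v, (κ v : ℂ) * (G a v * (starRingEnd ℂ) (G b v)) = ((G a b).im : ℂ)
  hκ : (∀ v, 0 ≤ κ v) ∧ ∀ v ∈ Rn, κ v ≤ κs
  hg : 0 < g₀ ∧ ∀ c, g₀ ≤ g (e c)
  hμ : ∀ c, ‖μ c‖ ≤ δ ∧ |(G (e c) (e c)).im - g (e c)| ≤ δ
  hL : ∀ c, ∑ v ∈ Rn, ‖G (e c) v‖ ^ 4 ≤ Lc
  ho : ∀ c, κ o * ‖G (e c) o‖ ^ 2 ≤ δ
  hR : (∀ c, e c ∈ Rn) ∧ o ∉ Rn

/-- the properties of the cut off `θ`: zero below `t₀`, the identity above `t₁` -/
structure Cut (θ : ℝ → ℝ) (t₀ t₁ ε : ℝ) : Prop where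
  sm : ContDiff ℝ 2 θ
  bd : ∀ a, 0 ≤ a → 0 ≤ θ a ∧ θ a ≤ a
  lo : ∀ a, a ≤ t₀ → θ a = 0 ∧ deriv θ a = 0 ∧ deriv (deriv θ) a = 0
  hi : ∀ a, t₁ ≤ a → θ a = a
  d1 : ∀ a, 0 ≤ a → |a * deriv θ a - θ a| ≤ ε * a
  d2 : ∀ a, 0 ≤ a → |a * deriv (deriv θ) a| ≤ ε

/-- the cut off of the functionals (`Pool.Agent.LE.QF.H70.cu`) -/
def cu (x : ℝ) : ℝ := 1 - max (1 - x) 0 ^ 3

/-- the mass of the heavy sites -/
def ym (e : ι → X) (θ : ℝ → ℝ) (Rn : Finset X) (κ : X → ℝ) (G : Matrix X X ℂ) (o : X) : ℝ :=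
  (∑ c, aa κ G o (e c)) + ∑ v ∈ Rn.filter (fun v => ∀ c, e c ≠ v), θ (aa κ G o v)

/-- the mass of the heavy sites after the run -/
def yn (e : ι → X) (θ : ℝ → ℝ) (Rn : Finset X) (κ : X → ℝ) (G : Matrix X X ℂ) (o : X) : ℝ :=
  ∑ v ∈ Rn.filter (fun v => ∀ c, e c ≠ v), θ (aa κ G o v)

/-- the Lyapunov function of the run -/
def Ph (e : ι → X) (θ : ℝ → ℝ) (Rn : Finset X) (κ : X → ℝ) (G : Matrix X X ℂ) (o : X) : ℝ :=
  3 * ym e θ Rn κ G o - ym e θ Rn κ G o ^ 2 - (∑ c, aa κ G o (e c)) / 10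

end Pool.Agent.KIL
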