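import Pool.Agent.KIL.Defs
import Pool.Agent.ANP.Defs

/-!
# The phase of the pre-kills of a site `o`: definitions

A phase kills running sites of a set `R` (near the cluster `Q`), in rounds, until every running site
`x ∈ R` absorbs at most the part `2 t₁` of the current out of `o`. The monitored quantities are
relative to the start `G⁰` of the phase, and the weights contain the costs of the sites which are already
killed.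
-/

set_option autoImplicit false

open MeasureTheory ProbabilityTheory

open scoped BigOperators Matrix NNReal ENNReal

noncomputable section

namespace Pool.Agent.KIL

open Pool.Agent.ANP (Cfg)

variable {X : Type} [Fintype X] [DecidableEq X]

/-- the monitor of an entry: `w |G_xy - G⁰_xy|² / θ²` -/
def pm (w θ : ℝ) (G G0 : Matrix X X ℂ) (x y : X) : ℝ := w * ‖G x y - G0 x y‖ ^ 2 / θ ^ 2

/-- the monitor of a row: `∑_{y ∈ Y} κ_y |G_xy - G⁰_xy|² / θ²` -/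
def mm (κ : X → ℝ) (θ : ℝ) (Y : Finset X) (G G0 : Matrix X X ℂ) (x : X) : ℝ :=
  (∑ y ∈ Y, κ y * ‖G x y - G0 x y‖ ^ 2) / θ ^ 2

/-- the resolvent and the absorption as functions of the configuration -/
structure Sys (X : Type) where
  /-- the resolvent -/
  G : Cfg X → Matrix X X ℂ
  /-- the absorption -/
  k : Cfg X → X → ℝ

/-- extension by zero -/
def ext (D : Finset X) (V : D → ℝ) (x : X) : ℝ := if h : x ∈ D then V ⟨x, h⟩ else 0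

/-- the kill run of `D` (all clocks of `D` are `s`) starting from `T`: at the time `t ∈ [0, s]` the fresh
potential on `D` has the variance `t`. `mb` is the gauge of the run on `D`. -/
structure Run (Y : Sys X) (T : Cfg X) (D : Finset X) (s : ℝ) (mb : X → ℂ)
    (Gm : ℝ × (D → ℝ) → Matrix X X ℂ) (kp : ℝ → X → ℝ) : Prop where
  jets : ∀ q : ℝ × (D → ℝ), 0 ≤ q.1 → q.1 ≤ s → KJ (fun c : D => (c : X)) q Gm kp (Gm q) (kp q.1)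
    (fun x => (mb x).im) (fun c => Gm q c c - mb c)
  ward : ∀ q : ℝ × (D → ℝ), 0 ≤ q.1 → q.1 ≤ s → ∀ a b,
    ∑ v, (kp q.1 v : ℂ) * (Gm q a v * (starRingEnd ℂ) (Gm q b v)) = ((Gm q a b).im : ℂ)
  pos : ∀ t, 0 ≤ t → t ≤ s → ∀ v, 0 < kp t v ∧ kp t v ≤ Y.k T v
  con : ∀ t, 0 ≤ t → t ≤ s → ∀ v, v ∉ D → kp t v = Y.k T v
  gm : ∀ q : ℝ × (D → ℝ), 0 ≤ q.1 → q.1 ≤ s → ∀ o, 0 < gam (kp q.1) (Gm q) o
  st : Gm (0, 0) = Y.G T ∧ kp 0 = Y.k T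
  en : ∀ V : D → ℝ, Gm (s, V) = Y.G (T.kl D (ext D V)) ∧ kp s = Y.k (T.kl D (ext D V))

/-- the data of a phase: `G0`, `k0` the resolvent and the absorption at its start, `R` the running sites
near the cluster, `Q` the unrevealed sites of the cluster, `o ∈ Q` the site which is treated; `s` the
clock of the sites of `R`, `mb` their gauge in the runs, `θ`, `θK`, `θm` the thresholds of the monitors,
`g₀ ≤ Im mb ≤ g₁`, `δ` the gauge error, `Λ` bounds `∑_{y ∈ R} |G0_xy|⁴`, `kI` bounds `|G_xy|²` on `R`,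
`nK` the number of the killed sites, `S₀` the budget of the killed mass, `ρ` the smallest mass of a
normal round, `j`, `jL` the powers of the monitors and of the functional of the last round -/
structure Pha (X : Type) where
  G0 : Matrix X X ℂ
  k0 : X → ℝ
  R : Finset X
  Q : Finset X
  o : X
  mb : X → ℂ
  s : ℝ
  θ : ℝ
  θK : ℝ
  θm : ℝ
  g₀ : ℝ
  g₁ : ℝ
  κs : ℝ
  κ₀ : ℝ
  δ : ℝ
  Λ : ℝ
  kI : ℝ
  t₀ : ℝ
  t₁ : ℝ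
  ρ : ℝ
  S₀ : ℝ
  ε : ℝ
  cut : ℝ → ℝ
  nK : ℕ
  j : ℕ
  jL : ℕ

namespace Pha

variable (P : Pha X)

/-- the weight of the entries of the row `x` -/
def w (x : X) : ℝ := if x ∈ P.Q then P.k0 x else 1

/-- the threshold of the entries of the row `x` -/
def th (x : X) : ℝ := if x ∈ P.Q then P.θK else P.θ

/-- bound for `w x |G_xc|²` -/
def Kh (x c : X) : ℝ := 2 * (P.w x * ‖P.G0 x c‖ ^ 2) + 2 * P.th x ^ 2

/-- the cost of the killed site `c` in the monitor of the entry `x, y` -/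
def a (x y c : X) : ℝ := P.s * (16 * P.j ^ 2 * (P.Kh x c * P.Kh y c) / P.th x ^ 2 + P.δ ^ 2)

/-- the cost of the killed site `c` in the monitor of the row `x` -/
def am (x c : X) : ℝ :=
  4 * P.s * (3 * P.j ^ 2 * P.g₁ * P.Kh x c / P.θm ^ 2 +
    2 * P.j * P.δ * Real.sqrt P.g₁ * Real.sqrt (P.Kh x c) / P.θm)

/-- the monitors after the sites of `K` have been killed; `κ` the absorption, `G` the resolvent -/
def u (K : Finset X) (κ : X → ℝ) (G : Matrix X X ℂ) : ℝ :=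
  (∑ x ∈ (P.R \ K) ∪ P.Q, ∑ y ∈ P.R \ K,
    Real.exp (1 - ∑ c ∈ K, P.a x y c) * pm (P.w x) (P.th x) G P.G0 x y ^ P.j) +
  ∑ x ∈ P.R \ K, Real.exp (1 - ∑ c ∈ K, P.am x c) * mm κ P.θm (P.R \ K) G P.G0 x ^ P.j

/-- the monitors in the run which kills `D`, at the time `t` -/
def ur (K D : Finset X) (κ : X → ℝ) (G : Matrix X X ℂ) (t : ℝ) : ℝ :=
  (∑ x ∈ (P.R \ K) ∪ P.Q, ∑ y ∈ P.R \ K,
    Real.exp (1 - ∑ c ∈ K, P.a x y c - t / P.s * ∑ c ∈ D, P.a x y c) *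
      pm (P.w x) (P.th x) G P.G0 x y ^ P.j) +
  ∑ x ∈ P.R \ K, Real.exp (1 - ∑ c ∈ K, P.am x c - t / P.s * ∑ c ∈ D, P.am x c) *
    mm κ P.θm (P.R \ (K ∪ D)) G P.G0 x ^ P.j

/-- the number of the monitors -/
def NM : ℝ := (P.R.card + P.Q.card) * P.R.card + P.R.card

/-- the additive error of a run -/
def bt : ℝ := 9 * P.NM * (1 / 4) ^ P.j

/-- the bound of `∑_{v ∈ R} |G_cv|⁴` during the phase -/
def Lc : ℝ := 8 * (P.Λ + P.θ ^ 2 * (P.θm ^ 2 / P.κ₀ + P.nK * P.θ ^ 2))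

/-- the configuration `T` arises from the start by killing the sites of `K` -/
structure Rch (Y : Sys X) (T₀ : Cfg X) (K : Finset X) (T : Cfg X) : Prop where
  sub : K ⊆ P.R
  off : ∀ x, x ∉ K → T.V x = T₀.V x ∧ T.s x = T₀.s x ∧ Y.k T x = Y.k T₀ x
  on : ∀ x ∈ K, T.s x = 0
  mb : T.mb = T₀.mb

/-- the facts at the start `T₀` of the phase, part 1 (enough for the monitors) -/
structure Ok0 (Y : Sys X) (T₀ : Cfg X) : Prop where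
  G0 : P.G0 = Y.G T₀ ∧ P.k0 = Y.k T₀
  sR : (∀ x ∈ P.R, (T₀.s x : ℝ) = P.s) ∧ 0 < P.s
  QR : Disjoint P.Q P.R
  mb : ∀ x ∈ P.R, P.g₀ ≤ (P.mb x).im ∧ (P.mb x).im + P.δ ≤ P.g₁ ∧ ‖P.G0 x x - P.mb x‖ ≤ P.δ / 2
  kR : (∀ x, 0 < P.k0 x) ∧ ∀ x ∈ P.R, P.κ₀ ≤ P.k0 x ∧ P.k0 x ≤ P.κs
  Λ : ∀ x ∈ P.R, ∑ y ∈ P.R, ‖P.G0 x y‖ ^ 4 ≤ P.Λ
  kI : ∀ x ∈ P.R, ∀ y ∈ P.R, ‖P.G0 x y‖ ^ 2 ≤ P.kI / 4
  pos : 0 < P.θ ∧ 0 < P.θK ∧ 0 < P.θm ∧ 0 < P.g₀ ∧ 0 < P.κ₀ ∧ 0 < P.δ ∧ 1 ≤ P.j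
  θδ : P.θ ≤ P.δ / 2 ∧ 4 * P.θ ^ 2 ≤ P.kI
  ca : ∀ K ⊆ P.R, (K.card : ℝ) ≤ P.nK → (∀ x ∈ P.R ∪ P.Q, ∀ y ∈ P.R, ∑ c ∈ K, P.a x y c ≤ 1) ∧
    ∀ x ∈ P.R, ∑ c ∈ K, P.am x c ≤ 1

/-- the facts at the start `T₀` of the phase, part 2 -/
structure Ok (Y : Sys X) (T₀ : Cfg X) : Prop extends P.Ok0 Y T₀ where
  oQ : P.o ∈ P.Q
  fl : ∀ x ∈ P.R, P.k0 P.o * ‖P.G0 P.o x‖ ^ 2 ≤ P.δ / 4
  po2 : 0 < P.t₀ ∧ P.t₀ ≤ P.t₁ ∧ P.t₁ ≤ 1 ∧ 0 < P.ρ ∧ P.ρ ≤ 1 ∧ 0 ≤ P.ε ∧ 1 ≤ P.jL ∧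
    4 * P.θK ^ 2 ≤ P.δ
  nK : (P.S₀ + 1) / P.t₁ ≤ P.nK
  cut : Cut P.cut P.t₀ P.t₁ P.ε
  e1 : 2 * P.δ / P.g₀ ≤ P.ε ∧ P.κs * Real.sqrt (2 / P.t₀ * P.Lc) / P.g₀ ≤ P.ε ^ 2 ∧ P.ε ≤ 1 / 16
  e2 : P.jL * (4 * P.ε ^ 2 + 16 * P.ρ) ≤ 1 / 8 ∧
    300 * P.jL * (2 * (P.κs * P.kI / P.g₀) / P.t₁ + 1) * P.ρ ≤ 1 ∧
    P.s * (20 * P.jL * P.δ ^ 2 * Real.sqrt (1 / P.t₁ * Real.sqrt (1 / P.t₁ * P.Lc)) / (P.ρ * P.g₀) +
      128 * P.jL * P.ρ * P.δ ^ 2 * (1 / P.t₁) * (P.κs * P.kI / P.g₀) / P.t₁) ≤ 1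

/-- the mass of the heavy sites -/
def y (K : Finset X) (κ : X → ℝ) (G : Matrix X X ℂ) : ℝ := ∑ v ∈ P.R \ K, P.cut (aa κ G P.o v)

/-- the value function of the phase: remaining budget `S`; `lam`, `B` are the numbers of `Kr1Stmt` -/
def val (lam B S : ℝ) (K : Finset X) (κ : X → ℝ) (G : Matrix X X ℂ) : ℝ :=
  Real.exp (2 * lam) * ((1 - cu (P.u K κ G)) *
    Real.exp (lam * (3 * P.y K κ G - P.y K κ G ^ 2 - 2) - lam * S / 20) + B * cu (P.u K κ G))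

/-- the result of a run or of a phase: `K` killed -/
structure Post (Y : Sys X) (T₀ : Cfg X) (K : Finset X) (T : Cfg X) : Prop where
  rch : P.Rch Y T₀ K T
  card : (K.card : ℝ) ≤ P.nK
  en : ∀ x ∈ P.R \ K, ∀ y ∈ P.R \ K, ‖Y.G T x y - Y.G T₀ x y‖ ≤ P.θ
  fl : ∀ b ∈ P.Q, ∀ x ∈ P.R \ K, Y.k T₀ b * ‖Y.G T b x - Y.G T₀ b x‖ ^ 2 ≤ P.θK ^ 2
  ms : ∀ x ∈ P.R \ K, ∑ y ∈ P.R \ K, Y.k T y * ‖Y.G T x y - Y.G T₀ x y‖ ^ 2 ≤ P.θm ^ 2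

end Pha

end Pool.Agent.KIL
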