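import Pool.Agent.KIL.Defs

/-!
# The pre-kills of a site `o` (block KIL of AND2B): statements, with proofs
-/

set_option autoImplicit false

open MeasureTheory ProbabilityTheory Function Filter

open scoped ENNReal BigOperators Topology NNReal Matrix

noncomputable section

namespace Pool.Agent.KIL

open Pool.Agent.LE.QF (HJ HM gG LL dC)

/-- UF3: the functional `u` of the flow with a second function `Φ`. Proof: `B ≥ 1 + 2 C₁`,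
`F = (1 - cu u) Φ + B cu u`. If `u q ≥ 1`: the first and second derivatives of `cu` vanish at `u q`, and
`LL F = (1 - cu) LL Φ + … = 0`. If `x = u q < 1`: `LL F = (1 - x)³ LL Φ + (B - Φ) (3 (1 - x)² LL u -
3 (1 - x) |∇u|²) - 3 (1 - x)² ∇u · ∇Φ`, and `3 (1 - x)² |∇u| |∇Φ| ≤ (1 - x)³ |∇Φ|² / C₁ +
(9/4) C₁ (1 - x) |∇u|²`, `(9/4) C₁ ≤ 3 (B - Φ)`. So `LL F ≤ b₁ + 3 B b`. `FlwStmt`
(`Helper2_LQF/FLW.lean`) for `F / B` with the function `a = 0`. The calculus of `cu` is in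
`Helper70_LQF/UFL.lean` (the same function). -/
def Uf3Stmt : Prop :=
  ∀ (ι : Type) [Fintype ι] [DecidableEq ι] (T C₁ B : ℝ) (b b₁ : ℝ → ℝ)
    (u Φ ρ : ℝ × (ι → ℝ) → ℝ), 0 < T → 0 < C₁ → 1 + 2 * C₁ ≤ B → Continuous b → Continuous b₁ →
    (∀ t, 0 ≤ b t ∧ 0 ≤ b₁ t) →
    (∀ q : ℝ × (ι → ℝ), 0 ≤ q.1 → q.1 ≤ T → 0 ≤ u q ∧ ContDiffAt ℝ 2 u q ∧ ContDiffAt ℝ 2 Φ q ∧
      0 ≤ Φ q ∧ Φ q ≤ 1 ∧ (u q < 1 → LL u q ≤ b q.1 ∧ LL Φ q ≤ -ρ q + b₁ q.1 ∧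
        ∑ c, dC c Φ q ^ 2 ≤ C₁ * ρ q)) →
      ∫ V, ((1 - cu (u (T, V))) * Φ (T, V) + B * cu (u (T, V)))
          ∂(Measure.pi fun _ : ι => gaussianReal 0 T.toNNReal) ≤
        (1 - cu (u (0, 0))) * Φ (0, 0) + B * cu (u (0, 0)) + (∫ t in (0 : ℝ)..T, b₁ t) +
          3 * B * ∫ t in (0 : ℝ)..T, b t

/-- KTH: the cut off. Proof: `S = Real.smoothTransition`, `Lg = log (t₁ / t₀)`,
`θ(a) = a S(log (a / t₀) / Lg)` for `a > 0`, `0` for `a ≤ 0` (zero near `(-∞, t₀)`, so it is smooth).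
`a θ' - θ = a S' / Lg`, `a θ'' = S' / Lg + S'' / Lg²`, and `S', S''` are bounded (continuous, zero
outside of `[0, 1]`). -/
def KthStmt : Prop :=
  ∃ C : ℝ, 1 ≤ C ∧ ∀ t₀ t₁ : ℝ, 0 < t₀ → Real.exp 1 * t₀ ≤ t₁ →
    ∃ θ : ℝ → ℝ, Cut θ t₀ t₁ (C / Real.log (t₁ / t₀))

/-- KAL: the algebra. `W` = the sites `≠ o`, `D` = the killed sites, `R` = the other running sites,
`H ⊇ D` = the heavy sites; `p v = θ(a v)`, `w v = θ'(a v)`, `z v = θ''(a v)` on `R`. Proof. `A = ∑ A c`,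
`E² = ∑ d_c²`, `w v = 1`, `p v = a v` on `D`, all zero outside of `D ∪ R`; `Y = ∑ w v a v`, `|Y - y| ≤ ε`,
`y = ∑ p v ∈ [0, 1]`.
(1) `|x v c|² ≤ 4 a v e v c`, so `|∑_{v ∈ H} s v x v c|² ≤ 4 (∑ s v² a v) ∑_{v ∈ H} e v c ≤
4 (sup s)² ε² A c`.
(2) `d c = ∑_v s v x v c + ∑_v (1 - s v) x v c` with `s v = p v / a v ∈ [0, 1]` (`s v = 1` on `D`), the
first is at most `2 ε A_c^{1/2}`, the second at most `(4 (1 - y) (1 + ε) A c)^{1/2}` (`∑ (1 - s v)² a v ≤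
1 - y`). So `E² ≤ (4 (1 - y) + C ε) A`.
(3) `LL y = - A + ∑_v w v ∑_c e v c + ∑ w v er v - Y J - ∑_c (∑_v w v x v c) d c + Y E² +
(1/2) ∑_{v ∈ R} z v ∑_c da v c ²`, `J = ∑_v (∑_c e v c + er v) - A`, `|J| ≤ ε A + ∑ |er v|`. The second
term is at most `(1 + ε) ε² A`, the fifth `C ε A`; `da v c² ≤ 8 a v e v c + 2 a v² d c²`, so the last is at
most `ε ∑_v ∑_c (4 e v c + a v d c²) ≤ C ε A`. So `LL y ≤ - A + y E² + C ε A + C ∑ |er v|`.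
(4) `|∇ y|² = ∑_c (- ∑_v w v x v c + Y d c)² ≥ y² E² - C ε A`.
(5) `LL m ≥ - (1 + C ε) A - C ∑ |er v|`, `m = ∑_{v ∈ D} a v`.
(6) `LL Φ = (3 - 2 y) LL y - |∇ y|² - LL m / 10 ≤ - (3 - 2 y) A + 3 y (1 - y) E² + A / 10 + C ε A + … ≤
(- (3 - 2 y) + 12 y (1 - y)² + 1 / 10 + C ε) A + …`, and `3 - 2 y - 12 y (1 - y)² ≥ 2 / 5` on `[0, 1]`
(minimum `0.463` at `y = 0.431`).
(7) `|∇ Φ|² ≤ C A`. -/
def KalStmt : Prop :=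
  ∃ ε₀ C : ℝ, 0 < ε₀ ∧ 1 ≤ C ∧ ∀ (W ι : Type) [Fintype W] [Fintype ι] [DecidableEq W]
    (D R H : Finset W) (a p w z er s : W → ℝ) (x e : W → ι → ℝ) (A : ι → ℝ) (ε : ℝ),
    0 ≤ ε → ε ≤ ε₀ → Disjoint D R → D ⊆ H →
    (∀ v, 0 ≤ a v) → ∑ v, a v = 1 →
    (∀ v ∈ R, 0 ≤ p v ∧ p v ≤ a v ∧ |a v * w v - p v| ≤ ε * a v ∧ |a v * z v| ≤ ε ∧ |w v| ≤ 1 + ε ∧
      (v ∉ H → p v = 0 ∧ w v = 0 ∧ z v = 0)) →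
    (∀ c, 0 ≤ A c) → (∀ v c, 0 ≤ e v c ∧ x v c ^ 2 ≤ 4 * (a v * e v c)) →
    (∀ c, ∑ v ∈ H, e v c ≤ ε ^ 2 * A c) → (∀ c, |∑ v, e v c - A c| ≤ ε * A c) →
    (∀ v, 0 ≤ s v ∧ (v ∉ D → s v = 0)) → ∑ v, s v = ∑ c, A c →
    ∀ (d : ι → ℝ) (da : W → ι → ℝ) (la : W → ℝ) (y m ly lm : ℝ) (dy dm : ι → ℝ),
      (∀ c, d c = ∑ v, x v c) → (∀ v c, da v c = -x v c + a v * d c) →
      (∀ v, la v = (∑ c, e v c) - s v + er v - a v * ((∑ v', ((∑ c, e v' c) + er v')) - ∑ c, A c) -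
        (∑ c, x v c * d c) + a v * ∑ c, d c ^ 2) →
      m = ∑ v ∈ D, a v → y = m + ∑ v ∈ R, p v → (∀ c, dm c = ∑ v ∈ D, da v c) →
      (∀ c, dy c = dm c + ∑ v ∈ R, w v * da v c) → lm = ∑ v ∈ D, la v →
      ly = lm + ∑ v ∈ R, (w v * la v + z v / 2 * ∑ c, da v c ^ 2) →
        0 ≤ m ∧ m ≤ y ∧ y ≤ 1 ∧
        (3 - 2 * y) * ly - ∑ c, dy c ^ 2 - lm / 10 ≤ -(∑ c, A c) / 5 + C * ∑ v, |er v| ∧
        ∑ c, ((3 - 2 * y) * dy c - dm c / 10) ^ 2 ≤ C * ∑ c, A c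

/-- KJN: the jet of `aa`. Proof: `JalStmt` (`Helper77_LQF/JAL.lean`). `∂_c G v o = - G v (e c) G (e c) o`,
`LL (G v o) = ∑_c G v (e c) μ c G (e c) o`, so `∂_c nn v = - gam xx v c`,
`LL nn v = gam (∑_c ee v c + er v) + kp' v |G v o|²`, and the sum of `- kp' v |G v o|²` over `v ≠ o` is
`gam ∑_c AA c` (`e c ≠ o`, `e` is injective). The quotient: `LL (n / Γ) = LL n / Γ - n LL Γ / Γ² -
∇n · ∇Γ / Γ² + n |∇Γ|² / Γ³` (composition with `x ↦ 1 / x`). -/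
def KjnStmt : Prop :=
  ∀ (ι X : Type) [Fintype ι] [DecidableEq ι] [Fintype X] [DecidableEq X] (e : ι → X)
    (q : ℝ × (ι → ℝ)) (Gm : ℝ × (ι → ℝ) → Matrix X X ℂ) (kp : ℝ → X → ℝ) (G : Matrix X X ℂ)
    (κ g : X → ℝ) (μ : ι → ℂ) (o : X), KJ e q Gm kp G κ g μ → (∀ c, e c ≠ o) → 0 < gam κ G o →
    ∀ v, v ≠ o → HJ (fun r => aa (kp r.1) (Gm r) o v) q (aa κ G o v) (fun c => da e κ G o v c)
      (la e κ g G μ o v)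

/-- KJA: the jet of the Lyapunov function. Proof: `KjnStmt`, `JalStmt` (composition with `θ`, sums,
product). -/
def KjaStmt : Prop :=
  ∀ (ι X : Type) [Fintype ι] [DecidableEq ι] [Fintype X] [DecidableEq X] (e : ι → X)
    (q : ℝ × (ι → ℝ)) (Gm : ℝ × (ι → ℝ) → Matrix X X ℂ) (kp : ℝ → X → ℝ) (G : Matrix X X ℂ)
    (κ g : X → ℝ) (μ : ι → ℂ) (o : X) (Rn : Finset X) (θ : ℝ → ℝ), KJ e q Gm kp G κ g μ →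
    (∀ c, e c ≠ o) → o ∉ Rn → 0 < gam κ G o → ContDiff ℝ 2 θ →
    ∀ (y m ly lm : ℝ) (dy dm : ι → ℝ), m = ∑ c, aa κ G o (e c) → y = ym e θ Rn κ G o →
      (∀ c, dm c = ∑ c', da e κ G o (e c') c) →
      (∀ c, dy c = dm c + ∑ v ∈ Rn.filter (fun v => ∀ c, e c ≠ v),
        deriv θ (aa κ G o v) * da e κ G o v c) →
      lm = ∑ c, la e κ g G μ o (e c) →
      ly = lm + ∑ v ∈ Rn.filter (fun v => ∀ c, e c ≠ v), (deriv θ (aa κ G o v) * la e κ g G μ o v +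
        deriv (deriv θ) (aa κ G o v) / 2 * ∑ c, da e κ G o v c ^ 2) →
        HJ (fun r => Ph e θ Rn (kp r.1) (Gm r) o) q (3 * y - y ^ 2 - m / 10)
          (fun c => (3 - 2 * y) * dy c - dm c / 10)
          ((3 - 2 * y) * ly - ∑ c, dy c ^ 2 - lm / 10)

/-- KNB: bounds at a good point. Proof. (1) trivial. (2) Ward: `∑_v κ v |G v (e c)|² = Im G (e c) (e c)`,
and the term `v = o` is at most `δ`. (3) `∑_{v ∈ H} κ v |G v (e c)|² ≤ κs |H|^{1/2} (∑_v |G v (e c)|⁴)^{1/2}`.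
(4) `β v = ∑_c G v (e c) μ c G (e c) o`, `∑_v |er v| ≤ 2 (∑ κ v |G v o|²)^{1/2} (∑ κ v |β v|²)^{1/2} / gam`,
`∑_v κ v |β v|² = ∑_{c, c'} u c conj (u c') Im G (e c) (e c')`, `u c = μ c G (e c) o` (Ward), at most
`(∑_{c, c'} |G (e c) (e c')|²)^{1/2} ∑_c |u c|²`, `∑_c |u c|² ≤ δ² gam ∑_c AA c / g₀`,
`∑_{c'} |G (e c) (e c')|² ≤ (|ι| Lc)^{1/2}` (`e` is injective). -/
def KnbStmt : Prop :=
  ∀ (ι X : Type) [Fintype ι] [DecidableEq ι] [Fintype X] [DecidableEq X] (e : ι → X)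
    (G : Matrix X X ℂ) (κ g : X → ℝ) (μ : ι → ℂ) (Rn : Finset X) (o : X) (κs g₀ δ Lc : ℝ),
    Function.Injective e → KGd e G κ g μ Rn o κs g₀ δ Lc → 0 < gam κ G o →
      (∀ v, 0 ≤ aa κ G o v) ∧ (∑ v ∈ Finset.univ.erase o, aa κ G o v = 1) ∧ (∀ c, 0 ≤ AA e κ g G o c) ∧
      (∀ v c, 0 ≤ ee e κ G o v c ∧ xx e κ G o v c ^ 2 ≤ 4 * (aa κ G o v * ee e κ G o v c)) ∧
      (∀ c, |∑ v ∈ Finset.univ.erase o, ee e κ G o v c - AA e κ g G o c| ≤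
        2 * δ / g₀ * AA e κ g G o c) ∧
      (∀ (H : Finset X) (N : ℝ), H ⊆ Rn → (H.card : ℝ) ≤ N → ∀ c,
        ∑ v ∈ H, ee e κ G o v c ≤ κs * Real.sqrt (N * Lc) / g₀ * AA e κ g G o c) ∧
      (∑ v ∈ Finset.univ.erase o, |er e κ G μ o v|) ^ 2 ≤
        4 * Real.sqrt ((Fintype.card ι : ℝ) * Real.sqrt ((Fintype.card ι : ℝ) * Lc)) * δ ^ 2 / g₀ *
          ∑ c, AA e κ g G o c

/-- KR1: one round. `Φ = m exp (lam (Ph - 2) + β (T - t))`, `lam` small. Proof: `KjaStmt`, `KnbStmt`,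
`KalStmt` with `W = {v // v ≠ o}`, `D = {e c}`, `R = Rn` without `D`, `H = D ∪ {v ∈ Rn : aa v > t₀}` (at
most `2 / t₀` points, because `∑ aa v = 1`). By (4) of `KnbStmt` `C ∑ |er| ≤ A / 10 + C' δ² R / g₀`, so
`LL Ph ≤ - A / 10 + C' δ² R / g₀` and `|∇ Ph|² ≤ C A`, so
`LL Φ = Φ (lam LL Ph + (lam² / 2) |∇ Ph|² - β) ≤ - lam Φ A / 20` with `β = lam C' δ² R / g₀`, and
`|∇ Φ|² ≤ lam² Φ² C A ≤ C₁ (lam Φ A / 20)`. `Uf3Stmt`. At the end `yn ≤ y`, and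
`3 y - y² - m / 10 ≥ 3 yn - yn²` (`y = yn + m`, `m ≥ 0`, `y ≤ 1`). -/
def Kr1Body (ε₀ lam C B : ℝ) : Prop :=
    ∀ (ι X : Type) [Fintype ι] [DecidableEq ι] [Fintype X]
    [DecidableEq X] (e : ι → X) (Gm : ℝ × (ι → ℝ) → Matrix X X ℂ) (kp : ℝ → X → ℝ) (g : X → ℝ)
    (μ : ℝ × (ι → ℝ) → ι → ℂ) (Rn : Finset X) (o : X) (T κs g₀ δ Lc t₀ t₁ ε β m : ℝ) (θ : ℝ → ℝ)
    (u : ℝ × (ι → ℝ) → ℝ) (b : ℝ → ℝ), 0 < T → 0 < t₀ → t₀ ≤ t₁ → t₁ ≤ 1 → 0 ≤ ε → ε ≤ ε₀ →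
    Cut θ t₀ t₁ ε → Continuous b → (∀ t, 0 ≤ b t) →
    (Fintype.card ι : ℝ) ≤ 1 / t₀ → 2 * δ / g₀ ≤ ε → κs * Real.sqrt (2 / t₀ * Lc) / g₀ ≤ ε ^ 2 →
    β = C * δ ^ 2 * Real.sqrt (1 / t₀ * Real.sqrt (1 / t₀ * Lc)) / g₀ →
    0 ≤ m → m * Real.exp (β * T) ≤ 1 →
    (∀ q : ℝ × (ι → ℝ), 0 ≤ q.1 → q.1 ≤ T → KJ e q Gm kp (Gm q) (kp q.1) g (μ q) ∧
      (∀ v, 0 ≤ kp q.1 v) ∧ 0 < gam (kp q.1) (Gm q) o ∧ 0 ≤ u q ∧ ContDiffAt ℝ 2 u q ∧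
        (u q < 1 → LL u q ≤ b q.1 ∧ KGd e (Gm q) (kp q.1) g (μ q) Rn o κs g₀ δ Lc)) →
    (∀ c, e c ∈ Rn) → o ∉ Rn →
      ∫ V, ((1 - cu (u (T, V))) * (m * Real.exp (lam * (3 * yn e θ Rn (kp T) (Gm (T, V)) o -
          yn e θ Rn (kp T) (Gm (T, V)) o ^ 2 - 2))) + B * cu (u (T, V)))
          ∂(Measure.pi fun _ : ι => gaussianReal 0 T.toNNReal) ≤
        (1 - cu (u (0, 0))) * (m * Real.exp (β * T + lam * (Ph e θ Rn (kp 0) (Gm (0, 0)) o - 2))) +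
          B * cu (u (0, 0)) + 3 * B * ∫ t in (0 : ℝ)..T, b t

/-- KR1, see `Kr1Body` -/
def Kr1Stmt : Prop :=
  ∃ ε₀ lam C B : ℝ, 0 < ε₀ ∧ 0 < lam ∧ lam ≤ 1 ∧ 1 ≤ C ∧ 1 ≤ B ∧ Kr1Body ε₀ lam C B

/-- the functional of the last round -/
def uL {ι X : Type} [Fintype ι] [Fintype X] [DecidableEq X] (e : ι → X) (B : Finset X)
    (lam ρ t₁ : ℝ) (j : ℕ) (κ : X → ℝ) (G : Matrix X X ℂ) (o : X) : ℝ :=
  Real.exp (lam * ((∑ c, aa κ G o (e c)) - 2 * ρ)) +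
    Real.exp (lam * ∑ c, aa κ G o (e c)) * ∑ v ∈ B, ((aa κ G o v + t₁ / 2) / (5 * t₁ / 2)) ^ j

/-- KLJ: the last round, where the mass `m` of the killed sites is at most `2 ρ`. Proof: `KjnStmt`,
`KnbStmt`, `JalStmt`. `A = ∑ AA c`, `R = (|ι| (|ι| Lc)^{1/2})^{1/2}`, `J = ∑_{v ≠ o} (∑ ee v c + er v) - A`,
`|er| = ∑_{v ≠ o} |er v| ≤ 2 (R δ² A / g₀)^{1/2}`, `|J| ≤ ε A + |er|`.
(1) `∑_{v ∈ D} ee v c ≤ ε² AA c`, so `|∑_{v ∈ D} xx v c|² ≤ 4 m ε² AA c`; `dd c² ≤ 4 (1 + ε) AA c`. So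
`LL m ≤ - A (1 - ε² - m ε - 8 m^{1/2} ε - 8 m) + 2 |er| ≤ - (3/4) A + A / 16 + 64 R δ² / g₀`,
`|∇ m|² ≤ (8 m ε² + 10 m²) A ≤ 4 ρ (4 ε² + 16 ρ) A`, and `(lam / 2) |∇ m|² ≤ A / 16`.
(2) `v ∈ B`, `b = aa v + t₁ / 2`, `H₁ = 2 h / t₁ + 1`: `ee v c ≤ h AA c`, `h ≤ H₁ b`, `aa v ≤ b`. So
`|LL aa v| ≤ 12 H₁ b A + |er v| + b |er|`, `|∇ aa v|² ≤ 18 H₁ b² A`,
`|er v| ≤ 2 δ ∑_c (aa v ee v c)^{1/2} ≤ 2 δ (b |ι| h A)^{1/2}`.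
(3) `LL (b^j e^{lam m}) / (b^j e^{lam m}) = j LL aa v / b + (j (j - 1) / 2) |∇ aa v|² / b² + lam LL m +
(lam² / 2) |∇ m|² + j lam ∇ aa v · ∇ m / b ≤ A (30 j² H₁ - (7/16) lam) + (16 j / ρ + 64 j ρ) R δ² / g₀ +
128 j ρ δ² |ι| h / t₁` (Young for the errors: `j |er| ≤ lam A / 16 + 64 j ρ R δ² / g₀`,
`j |er v| / b ≤ lam A / 16 + 128 j ρ δ² |ι| h / t₁`), and `30 j² H₁ ≤ (7 / 16) lam`. For
`exp (lam (m - 2 ρ))` use (1). -/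
def KljStmt : Prop :=
  ∀ (ι X : Type) [Fintype ι] [DecidableEq ι] [Fintype X] [DecidableEq X] (e : ι → X)
    (q : ℝ × (ι → ℝ)) (Gm : ℝ × (ι → ℝ) → Matrix X X ℂ) (kp : ℝ → X → ℝ) (G : Matrix X X ℂ)
    (κ g : X → ℝ) (μ : ι → ℂ) (o : X) (Rn B : Finset X) (κs g₀ δ Lc kI t₁ ρ ε h lam : ℝ) (j : ℕ),
    KJ e q Gm kp G κ g μ → KGd e G κ g μ Rn o κs g₀ δ Lc → 0 < gam κ G o → B ⊆ Rn →
    (∀ c, e c ∉ B) → (∀ v ∈ B, ∀ c, ‖G v (e c)‖ ^ 2 ≤ kI) → 0 ≤ kI → 1 ≤ j → 0 < t₁ →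
    t₁ ≤ 1 → 0 < ρ →
    0 ≤ ε → ε ≤ 1 / 16 → 2 * δ / g₀ ≤ ε → κs * Real.sqrt (Fintype.card ι * Lc) / g₀ ≤ ε ^ 2 →
    h = κs * kI / g₀ → lam = j / (4 * ρ) → j * (4 * ε ^ 2 + 16 * ρ) ≤ 1 / 8 →
    300 * j * (2 * h / t₁ + 1) * ρ ≤ 1 → ∑ c, aa κ G o (e c) ≤ 2 * ρ →
      ∃ (g' : ι → ℝ) (l' : ℝ), HJ (fun r => uL e B lam ρ t₁ j (kp r.1) (Gm r) o) q
        (uL e B lam ρ t₁ j κ G o) g' l' ∧
        l' ≤ (20 * j * δ ^ 2 * Real.sqrt (Fintype.card ι * Real.sqrt (Fintype.card ι * Lc)) /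
          (ρ * g₀) + 128 * j * ρ * δ ^ 2 * Fintype.card ι * h / t₁) * uL e B lam ρ t₁ j κ G o

/-- KLR: the last round. Proof: `KljStmt`: `LL uL ≤ bL uL` where `m ≤ 2 ρ`, so for
`v = e^{bL (T - t)} uL` one has `LL v ≤ 0` there; where `u + v < 1` one has `uL < 1`, so `m ≤ 2 ρ`.
`Uf3Stmt` for `u + v` with `Φ = 0`, `ρ = 0`, `C₁ = 1`, `B = 3`; `cu (x + y) ≤ cu x + 3 y`;
`uL (0, 0) ≤ e^{- j / 4} + |B| (e^{1/4} 3 / 5)^j ≤ (1 + |B|) e^{- j / 5}`. -/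
def KlrStmt : Prop :=
  ∀ (ι X : Type) [Fintype ι] [DecidableEq ι] [Fintype X] [DecidableEq X] (e : ι → X)
    (Gm : ℝ × (ι → ℝ) → Matrix X X ℂ) (kp : ℝ → X → ℝ) (g : X → ℝ)
    (μ : ℝ × (ι → ℝ) → ι → ℂ) (Rn B : Finset X) (o : X)
    (T κs g₀ δ Lc kI t₁ ρ ε h bL lam : ℝ) (j : ℕ)
    (u : ℝ × (ι → ℝ) → ℝ) (b : ℝ → ℝ), 0 < T → B ⊆ Rn → (∀ c, e c ∉ B) → (∀ c, e c ∈ Rn) →
    o ∉ Rn → 0 ≤ kI → 1 ≤ j → 0 < t₁ → t₁ ≤ 1 → 0 < ρ → 0 ≤ ε → ε ≤ 1 / 16 → 2 * δ / g₀ ≤ ε →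
    κs * Real.sqrt (Fintype.card ι * Lc) / g₀ ≤ ε ^ 2 → h = κs * kI / g₀ → lam = j / (4 * ρ) →
    j * (4 * ε ^ 2 + 16 * ρ) ≤ 1 / 8 → 300 * j * (2 * h / t₁ + 1) * ρ ≤ 1 → 0 ≤ bL →
    20 * j * δ ^ 2 * Real.sqrt (Fintype.card ι * Real.sqrt (Fintype.card ι * Lc)) /
          (ρ * g₀) + 128 * j * ρ * δ ^ 2 * Fintype.card ι * h / t₁ ≤ bL →
    Continuous b → (∀ t, 0 ≤ b t) →
    (∀ q : ℝ × (ι → ℝ), 0 ≤ q.1 → q.1 ≤ T → KJ e q Gm kp (Gm q) (kp q.1) g (μ q) ∧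
      (∀ v, 0 ≤ kp q.1 v) ∧ 0 < gam (kp q.1) (Gm q) o ∧ 0 ≤ u q ∧ ContDiffAt ℝ 2 u q ∧
        (u q < 1 → LL u q ≤ b q.1 ∧ KGd e (Gm q) (kp q.1) g (μ q) Rn o κs g₀ δ Lc ∧
          (∀ v ∈ B, ∀ c, ‖Gm q v (e c)‖ ^ 2 ≤ kI))) →
    ∑ c, aa (kp 0) (Gm (0, 0)) o (e c) ≤ ρ → (∀ v ∈ B, aa (kp 0) (Gm (0, 0)) o v ≤ t₁) →
      ∫ V, cu (u (T, V) + uL e B lam ρ t₁ j (kp T) (Gm (T, V)) o)
          ∂(Measure.pi fun _ : ι => gaussianReal 0 T.toNNReal) ≤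
        cu (u (0, 0)) + 3 * Real.exp (T * bL) * ((1 + B.card) * Real.exp (-(j : ℝ) / 5)) +
          3 * ∫ t in (0 : ℝ)..T, b t

/-- RCT: relative Combes-Thomas estimate for the current out of `o`, without any lower bound for this
current. `ω` is a distance from `o` which is constant along the edges with a dead end point (`κ < s`) and
along the edges at `o`. Proof: `φ = e^{α ω}`, `ψ = (φ - 1) u`: `ψ o = 0` and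
`(H ψ) x + (V x - i κ x) ψ x = ∑_y H x y (φ y - φ x) u y` for `x ≠ o`. Multiply by `conj ψ x`, sum, take
the imaginary part: `P = ∑ κ |ψ|² ≤ ∑_{x, y} |H x y| |ψ x| |φ y - φ x| |u y|`, only the pairs with
`κ x, κ y ≥ s`, `x, y ≠ o` occur, `|φ y - φ x| ≤ 2 α φ y`, `φ y |u y| ≤ |ψ y| + |u y|`; by the Schur test
`P ≤ (2 α k / s) (P + (P Γ)^{1/2})`, `Γ = ∑_{v ≠ o} κ v |u v|²`, and `2 α k / s ≤ 1 / 8`. -/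
def RctStmt : Prop :=
  ∀ (X : Type) [Fintype X] [DecidableEq X] (Hm : Matrix X X ℝ) (V κ : X → ℝ) (o : X) (u : X → ℂ)
    (ω : X → ℝ) (s α k : ℝ), (∀ x y, Hm x y = Hm y x) → (∀ x, ∑ y, |Hm x y| ≤ k) → 0 < s →
    (∀ x, 0 ≤ κ x) →
    (∀ x, x ≠ o → (∑ y, (Hm x y : ℂ) * u y) + ((V x : ℂ) - Complex.I * κ x) * u x = 0) →
    ω o = 0 → (∀ x, 0 ≤ ω x) →
    (∀ x y, Hm x y ≠ 0 → |ω x - ω y| ≤ 1 ∧ (κ x < s ∨ κ y < s ∨ x = o ∨ y = o → ω x = ω y)) →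
    0 < α → α ≤ 1 → 16 * k * α ≤ s →
      ∑ v ∈ Finset.univ.erase o, κ v * ((Real.exp (α * ω v) - 1) ^ 2 * ‖u v‖ ^ 2) ≤
        ∑ v ∈ Finset.univ.erase o, κ v * ‖u v‖ ^ 2

end Pool.Agent.KIL
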