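import Pool.Agent.KIL.Stmts
import Pool.Agent.KIL.DefsB

/-!
# The phase of the pre-kills of a site `o`: statements, with proofs

`PHS` is the result: from the start `T₀` of a phase one reaches, by kills inside `R`, a configuration
where all monitored quantities have moved by at most the thresholds and every running site of `R`
absorbs at most the part `2 t₁` of the current out of `o`. `CTR` is the same for one run which kills an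
arbitrary set.
-/

set_option autoImplicit false

open MeasureTheory ProbabilityTheory Function Filter

open scoped ENNReal BigOperators Topology NNReal Matrix

noncomputable section

namespace Pool.Agent.KIL

open Pool.Agent.ANP (Cfg Att gm)
open Pool.Agent.LE.QF (HJ HM gG LL dC)

/-! ### jets of the monitors -/

/-- KEJ: the monitor of an entry. Proof (`JalStmt`): `Δ = G x y - G0 x y`, `∂_c Δ = - G x c G c y`,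
`LL Δ = ∑_c G x c μ c G c y`, `ψ = w |Δ|²`: `LL ψ = w ∑_c |G x c G c y|² + 2 w Re (conj Δ LL Δ)`,
`(∂_c ψ)² ≤ 4 ψ w |G x c G c y|²`. `LL (ψ^j) = j ψ^(j-1) LL ψ + (j (j - 1) / 2) ψ^(j-2) ∑_c (∂_c ψ)²` (`j ≥ 2`;
`LL ψ` if `j = 1`), and
`2 j ψ^(1/2) w^(1/2) δ |G x c G c y| ≤ j² w |G x c G c y|² + ψ δ²`. -/
def KejStmt : Prop :=
  ∀ (ι X : Type) [Fintype ι] [DecidableEq ι] [Fintype X] [DecidableEq X] (e : ι → X)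
    (q : ℝ × (ι → ℝ)) (Gm : ℝ × (ι → ℝ) → Matrix X X ℂ) (kp : ℝ → X → ℝ) (G G0 : Matrix X X ℂ)
    (κ g : X → ℝ) (μ : ι → ℂ) (x y : X) (w θ δ : ℝ) (j : ℕ), KJ e q Gm kp G κ g μ → 0 < θ →
    0 ≤ w → 1 ≤ j → (∀ c, ‖μ c‖ ≤ δ) →
      ∃ (g' : ι → ℝ) (l' : ℝ), HJ (fun r => pm w θ (Gm r) G0 x y ^ j) q (pm w θ G G0 x y ^ j) g' l' ∧
        l' ≤ (∑ c, 4 * (j : ℝ) ^ 2 * (w * ‖G x (e c)‖ ^ 2 * ‖G (e c) y‖ ^ 2) / θ ^ 2) *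
            pm w θ G G0 x y ^ (j - 1) + (∑ _c : ι, δ ^ 2) * pm w θ G G0 x y ^ j

/-- KMJ: the monitor of a row. Proof: `m = ∑_{y ∈ Y} κ y |Δ_y|²`, the absorption is constant on `Y`.
`LL m = ∑_y κ y ∑_c |G x c G c y|² + 2 Re ∑_y κ y conj Δ_y ∑_c G x c μ c G c y`, the first is at most
`g₁ ∑_c |G x c|²`, the second at most `2 m^(1/2) ∑_c |G x c| δ g₁^(1/2)` (Cauchy-Schwarz in `y` for each
`c`); `(∂_c m)² ≤ 4 |G x c|² m g₁`. So `LL (m^j) ≤ m^(j-1) (j g₁ + 2 j² g₁) ∑ |G x c|² +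
2 j δ g₁^(1/2) m^(j-1/2) ∑ |G x c|`, and the monitor is at most `1`. -/
def KmjStmt : Prop :=
  ∀ (ι X : Type) [Fintype ι] [DecidableEq ι] [Fintype X] [DecidableEq X] (e : ι → X)
    (q : ℝ × (ι → ℝ)) (Gm : ℝ × (ι → ℝ) → Matrix X X ℂ) (kp : ℝ → X → ℝ) (G G0 : Matrix X X ℂ)
    (κ g : X → ℝ) (μ : ι → ℂ) (x : X) (Y : Finset X) (θ δ g₁ : ℝ) (j : ℕ),
    KJ e q Gm kp G κ g μ → 0 < θ → 1 ≤ j → (∀ c, ‖μ c‖ ≤ δ) → (∀ v, 0 ≤ κ v) →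
    (∀ c, e c ∉ Y) → 0 ≤ g₁ → (∀ c, ∑ y ∈ Y, κ y * ‖G (e c) y‖ ^ 2 ≤ g₁) →
      ∃ (g' : ι → ℝ) (l' : ℝ),
        HJ (fun r => mm (kp r.1) θ Y (Gm r) G0 x ^ j) q (mm κ θ Y G G0 x ^ j) g' l' ∧
        (mm κ θ Y G G0 x ≤ 1 →
          l' ≤ (∑ c, (3 * (j : ℝ) ^ 2 * g₁ * ‖G x (e c)‖ ^ 2 / θ ^ 2 +
            2 * j * δ * Real.sqrt g₁ * ‖G x (e c)‖ / θ)) * mm κ θ Y G G0 x ^ (j - 1))

/-- MON: monitors with weights. Proof: `JalStmt` (time, exponential, product, sum). For each `p`: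
`LL (exp (b - a t / T) W^j) = exp (..) (l' - a / T W^j) ≤ exp (..) (r W^(j-1) + (s - a / T) W^j)` and
`W^(j-1) ≤ 4 W^j + (1/4)^(j-1)` (`W ≥ 1/4` or `W ≤ 1/4`), `4 r + s ≤ a / T`. -/
def MonStmt : Prop :=
  ∀ (ι π : Type) [Fintype ι] [DecidableEq ι] (Pf : Finset π) (q : ℝ × (ι → ℝ))
    (F : π → ℝ × (ι → ℝ) → ℝ) (W r s a b : π → ℝ) (j : ℕ) (T : ℝ), 0 < T → 0 ≤ q.1 → q.1 ≤ T →
    1 ≤ j → (∀ p ∈ Pf, 0 ≤ W p ∧ 0 ≤ r p ∧ 0 ≤ s p ∧ T * (4 * r p + s p) ≤ a p ∧ b p ≤ 1 ∧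
      ∃ (g' : ι → ℝ) (l' : ℝ), HJ (F p) q (W p ^ j) g' l' ∧
        l' ≤ r p * W p ^ (j - 1) + s p * W p ^ j) →
      ∃ (g' : ι → ℝ) (l' : ℝ),
        HJ (fun z => ∑ p ∈ Pf, Real.exp (b p - z.1 / T * a p) * F p z) q
          (∑ p ∈ Pf, Real.exp (b p - q.1 / T * a p) * W p ^ j) g' l' ∧
        l' ≤ 3 * (∑ p ∈ Pf, r p) * (1 / 4) ^ (j - 1)

/-! ### the monitors in a run -/

/-- UEN: consequences of `ur < 1`. Proof: the weights are at least one (`ca` for `K ∪ D`, `0 ≤ t ≤ s`,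
the costs are nonnegative), so every monitor is less than one. `w |G_xc|² ≤ 2 w |G0_xc|² + 2 w |Δ|² ≤
Kh x c`. `‖G_cc - mb c‖ ≤ δ / 2 + θ`. `∑_y κ_y |G_cy|² = Im G_cc` (Ward, the case `a = b`). -/
def UenStmt : Prop :=
  ∀ (X : Type) [Fintype X] [DecidableEq X] (Y : Sys X) (T₀ T : Cfg X) (P : Pha X)
    (K D : Finset X) (Gm : ℝ × (D → ℝ) → Matrix X X ℂ) (kp : ℝ → X → ℝ) (q : ℝ × (D → ℝ)),
    P.Ok0 Y T₀ → P.Rch Y T₀ K T → D ⊆ P.R \ K → ((K ∪ D).card : ℝ) ≤ P.nK →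
    Run Y T D P.s P.mb Gm kp → 0 ≤ q.1 → q.1 ≤ P.s → P.ur K D (kp q.1) (Gm q) q.1 < 1 →
      (∀ x ∈ P.R \ K, ∀ y ∈ P.R \ K, ‖Gm q x y - P.G0 x y‖ ≤ P.θ) ∧
      (∀ x ∈ P.Q, ∀ y ∈ P.R \ K, P.k0 x * ‖Gm q x y - P.G0 x y‖ ^ 2 ≤ P.θK ^ 2) ∧
      (∀ x ∈ P.R \ K, ∑ y ∈ P.R \ (K ∪ D), kp q.1 y * ‖Gm q x y - P.G0 x y‖ ^ 2 ≤ P.θm ^ 2) ∧
      (∀ x ∈ (P.R \ K) ∪ P.Q, ∀ y ∈ P.R \ K, P.w x * ‖Gm q x y‖ ^ 2 ≤ P.Kh x y) ∧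
      (∀ c ∈ D, ‖Gm q c c - P.mb c‖ ≤ P.δ ∧ |(Gm q c c).im - (P.mb c).im| ≤ P.δ ∧
        ∑ y, kp q.1 y * ‖Gm q c y‖ ^ 2 ≤ P.g₁)

/-- UDR (uses KEJ, KMJ, MON, UEN): the functional of a run. Proof: `MonStmt` with the pairs `(x, y)` and
the rows `x`; `r = ∑_{c ∈ D} 4 j² Kh x c Kh y c / th²`, `s = ∑_{c ∈ D} δ²` for the pairs (where `ur < 1`,
`UenStmt`; `G` is symmetric), `r = ∑_{c ∈ D} (3 j² g₁ Kh x c / θm² + 2 j δ g₁^(1/2) Kh^(1/2) / θm)`,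
`s = 0` for the rows; `4 P.s r ≤ 1` by `ca` for `D`, so
`LL ≤ 3 (NM / (4 s)) (1/4)^(j-1) = bt / (3 s)`. Smoothness everywhere by `KejStmt`, `KmjStmt` (any bound
for `μ`, `g₁`). At the time `0` the sets of the rows are smaller (`R \ (K ∪ D) ⊆ R \ K`); at the time `s`
the sum over the sites of `D` is dropped (the terms are nonnegative), `∑_{K ∪ D} = ∑_K + ∑_D`. -/
def UdrStmt : Prop :=
  ∀ (X : Type) [Fintype X] [DecidableEq X] (Y : Sys X) (T₀ T : Cfg X) (P : Pha X)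
    (K D : Finset X) (Gm : ℝ × (D → ℝ) → Matrix X X ℂ) (kp : ℝ → X → ℝ),
    P.Ok0 Y T₀ → P.Rch Y T₀ K T → D ⊆ P.R \ K → ((K ∪ D).card : ℝ) ≤ P.nK →
    Run Y T D P.s P.mb Gm kp →
      (∀ q : ℝ × (D → ℝ), 0 ≤ q.1 → q.1 ≤ P.s → 0 ≤ P.ur K D (kp q.1) (Gm q) q.1 ∧
        ContDiffAt ℝ 2 (fun r => P.ur K D (kp r.1) (Gm r) r.1) q ∧
        (P.ur K D (kp q.1) (Gm q) q.1 < 1 →
          LL (fun r => P.ur K D (kp r.1) (Gm r) r.1) q ≤ P.bt / (3 * P.s))) ∧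
      P.ur K D (kp 0) (Gm (0, 0)) 0 ≤ P.u K (Y.k T) (Y.G T) ∧
      ∀ V : D → ℝ, P.u (K ∪ D) (Y.k (T.kl D (ext D V))) (Y.G (T.kl D (ext D V))) ≤
        P.ur K D (kp P.s) (Gm (P.s, V)) P.s

/-- UGD (uses UEN): the good points. Proof: `UenStmt`. `hL`: `|G|⁴ ≤ 8 |G0|⁴ + 8 |Δ|⁴`,
`∑_{v ∈ R \ (K ∪ D)} |Δ|⁴ ≤ θ² ∑ |Δ|² ≤ θ² θm² / κ₀` (`kp v = k0 v ≥ κ₀` off `D`), the sites of `D` give
at most `nK θ⁴`. `ho`: `(k0 o)^(1/2) |G_oc| ≤ (δ / 4)^(1/2) + θK ≤ δ^(1/2)`, `kp o = k0 o` (`o ∉ D`, `o ∉ K`).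
`kp v ≤ Y.k T v = k0 v ≤ κs` on `R \ K`. -/
def UgdStmt : Prop :=
  ∀ (X : Type) [Fintype X] [DecidableEq X] (Y : Sys X) (T₀ T : Cfg X) (P : Pha X)
    (K D : Finset X) (Gm : ℝ × (D → ℝ) → Matrix X X ℂ) (kp : ℝ → X → ℝ) (q : ℝ × (D → ℝ)),
    P.Ok Y T₀ → P.Rch Y T₀ K T → D ⊆ P.R \ K → ((K ∪ D).card : ℝ) ≤ P.nK →
    Run Y T D P.s P.mb Gm kp → 0 ≤ q.1 → q.1 ≤ P.s → P.ur K D (kp q.1) (Gm q) q.1 < 1 →
      KGd (fun c : D => (c : X)) (Gm q) (kp q.1) (fun x => (P.mb x).im)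
        (fun c => Gm q c c - P.mb c) (P.R \ K) P.o P.κs P.g₀ P.δ P.Lc ∧
      ∀ v ∈ P.R \ K, ∀ c : D, ‖Gm q v c‖ ^ 2 ≤ P.kI

/-! ### the rounds -/

/-- GAR: the noise off `D` does not matter. Proof: the image of the product measure `gm 0 (kv T D)` under
the restriction to `D` is the product of the `gaussianReal 0 s` (`T.kv D x = T.s x = s` on `D`). -/
def GarStmt : Prop :=
  ∀ (X : Type) [Fintype X] [DecidableEq X] (T : Cfg X) (D : Finset X) (s : ℝ)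
    (q : (D → ℝ) → ℝ≥0∞), (∀ x ∈ D, (T.s x : ℝ) = s) → Measurable q →
      ∫⁻ ζ, q (fun c => ζ c) ∂(gm (fun _ => 0) (T.kv D)) =
        ∫⁻ V, q V ∂(Measure.pi fun _ : D => gaussianReal 0 s.toNNReal)

/-- RCM: kills. Proof: definitions (`Cfg.kl`, `Run.en`, `Run.con`): `Y.k (T.kl D ..) = kp s`, which is
`Y.k T` off `D`. Continuity of `V ↦ Gm (s, V)`: `KJ.hG` (the entries are `C²` at every point). -/
def RcmStmt : Prop :=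
  ∀ (X : Type) [Fintype X] [DecidableEq X] (Y : Sys X) (T₀ T : Cfg X) (P : Pha X)
    (K D : Finset X) (Gm : ℝ × (D → ℝ) → Matrix X X ℂ) (kp : ℝ → X → ℝ),
    P.Rch Y T₀ K T → D ⊆ P.R \ K → 0 < P.s → Run Y T D P.s P.mb Gm kp →
      (∀ V : D → ℝ, P.Rch Y T₀ (K ∪ D) (T.kl D (ext D V))) ∧
      (∀ ζ : X → ℝ, T.kl D ζ = T.kl D (ext D fun c => ζ c)) ∧
      ∀ x y, Continuous fun V : D → ℝ => Gm (P.s, V) x y

/-- VBR (uses UDR, UGD, RCM): a normal round. `D` = all sites of `R \ K` with `aa ≥ t₁`, their mass `r` is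
at least `ρ`. Proof: `Kr1Body` with `e = val`, `Rn = R \ K`, `T = s`, `b = bt / (3 s)`, `Lc = P.Lc`,
`m = exp (- lam (S - r) / 20) / 2`: `r ≤ 1`, `S > 0`, so `m exp (β s) ≤ exp (lam / 10) / 2 ≤ 1`. At the
start `ym = y` (`cut = id` above `t₁`), so the exponent is
`β s + lam (3 y - y² - 2) - lam r / 10 - lam (S - r) / 20 ≤ lam (3 y - y² - 2) - lam S / 20`
(`β s ≤ lam ρ / 20`). At the end `yn = P.y (K ∪ D)`, and `(1 - c) φ + B c` is nondecreasing in `c` (as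
`φ ≤ B`), `cu` is nondecreasing: `UdrStmt`. `card D ≤ r / t₁ ≤ 1 / t₁`. Bochner integral = `lintegral` of
`ofReal` (continuous bounded function). -/
def VbrStmt : Prop :=
  ∀ (ε₀ lam C B : ℝ), 0 < lam → lam ≤ 1 → 1 ≤ C → 1 ≤ B → Kr1Body ε₀ lam C B →
    ∀ (X : Type) [Fintype X] [DecidableEq X] (Y : Sys X) (T₀ T : Cfg X) (P : Pha X)
    (K D : Finset X) (Gm : ℝ × (D → ℝ) → Matrix X X ℂ) (kp : ℝ → X → ℝ) (S r : ℝ),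
    P.Ok Y T₀ → P.ε ≤ ε₀ →
    C * P.δ ^ 2 * Real.sqrt (1 / P.t₀ * Real.sqrt (1 / P.t₀ * P.Lc)) / P.g₀ * P.s ≤
      lam * P.ρ / 20 →
    P.Rch Y T₀ K T → (∀ v, v ∈ D ↔ v ∈ P.R \ K ∧ P.t₁ ≤ aa (Y.k T) (Y.G T) P.o v) →
    r = ∑ v ∈ D, aa (Y.k T) (Y.G T) P.o v → P.ρ ≤ r → P.t₁ * K.card ≤ P.S₀ - S → 0 < S →
    Run Y T D P.s P.mb Gm kp →
      ((K ∪ D).card : ℝ) ≤ P.nK ∧ P.t₁ * (K ∪ D).card ≤ P.S₀ - (S - r) ∧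
      ∫⁻ V, ENNReal.ofReal (P.val lam (2 * B) (S - r) (K ∪ D) (Y.k (T.kl D (ext D V)))
          (Y.G (T.kl D (ext D V)))) ∂(Measure.pi fun _ : D => gaussianReal 0 P.s.toNNReal) ≤
        ENNReal.ofReal (P.val lam (2 * B) S K (Y.k T) (Y.G T) +
          Real.exp (2 * lam) * (2 * B) * P.bt)

/-- VLR (uses UDR, UGD, RCM): the last round: `r < ρ`. Proof: `KlrStmt` with `B = R \ (K ∪ D)`,
`Rn = R \ K`, `b = bt / (3 s)`, `lam = jL / (4 ρ)`, `h = κs kI / g₀`, `bL` the number in `Ok.e2` divided by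
nothing: `s bL ≤ 1`, `exp 1 ≤ 3`; `card D ≤ r / t₁ ≤ 1 / t₁`. Pointwise: if the sum is less than one then
`ur < 1`, `UenStmt` at the time `s` gives `Post` for `K ∪ D`, and `uL < 1` gives `aa ≤ 2 t₁`. -/
def VlrStmt : Prop :=
  ∀ (X : Type) [Fintype X] [DecidableEq X] (Y : Sys X) (T₀ T : Cfg X) (P : Pha X)
    (K D : Finset X) (Gm : ℝ × (D → ℝ) → Matrix X X ℂ) (kp : ℝ → X → ℝ) (S r : ℝ),
    P.Ok Y T₀ → P.Rch Y T₀ K T →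
    (∀ v, v ∈ D ↔ v ∈ P.R \ K ∧ P.t₁ ≤ aa (Y.k T) (Y.G T) P.o v) →
    r = ∑ v ∈ D, aa (Y.k T) (Y.G T) P.o v → r < P.ρ → P.t₁ * K.card ≤ P.S₀ - S → 0 < S →
    Run Y T D P.s P.mb Gm kp →
      (∀ V : D → ℝ, P.ur K D (kp P.s) (Gm (P.s, V)) P.s + uL (fun c : D => (c : X))
          (P.R \ (K ∪ D)) (P.jL / (4 * P.ρ)) P.ρ P.t₁ P.jL (kp P.s) (Gm (P.s, V)) P.o < 1 →
        P.Post Y T₀ (K ∪ D) (T.kl D (ext D V)) ∧ ∀ v ∈ P.R \ (K ∪ D),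
          aa (Y.k (T.kl D (ext D V))) (Y.G (T.kl D (ext D V))) P.o v ≤ 2 * P.t₁) ∧
      ∫⁻ V, ENNReal.ofReal (cu (P.ur K D (kp P.s) (Gm (P.s, V)) P.s + uL (fun c : D => (c : X))
          (P.R \ (K ∪ D)) (P.jL / (4 * P.ρ)) P.ρ P.t₁ P.jL (kp P.s) (Gm (P.s, V)) P.o))
          ∂(Measure.pi fun _ : D => gaussianReal 0 P.s.toNNReal) ≤
        ENNReal.ofReal (cu (P.u K (Y.k T) (Y.G T)) +
          (9 * (1 + P.R.card) * Real.exp (-(P.jL : ℝ) / 5) + P.bt))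

/-- PHS (uses VBR, VLR, GAR, RCM, UEN): the phase. Proof: induction on `n`: for all `K, T, S` with
`Rch K T`, `t₁ |K| ≤ S₀ - S`, `S ≤ n ρ`: `Att T (q₂ + ofReal (val S K T + n tiny))`,
`tiny = exp (2 lam) 2 B bt + 9 (1 + |R|) exp (- jL / 5)`. If `u ≥ 1` or `S ≤ 0` then `val ≥ 1` (`y ∈ [0, 1]`,
`Att.one`). Otherwise `u < 1`, `S > 0`. If all `aa ≤ 2 t₁` on `R \ K`: `Post` (`ur` with `D = ∅`, or directly:
the weights in `u` are at least one), the hypothesis. Otherwise `D = {v ∈ R \ K : t₁ ≤ aa v}`. If `r ≥ ρ`: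
`Att.kill` with the function `q₂ + ofReal (val (S - r) (K ∪ D) (T.kl D ζ) + (n - 1) tiny)` (measurable,
because it is a continuous function of `ζ` on `D`), `GarStmt`, `VbrStmt`. If `r < ρ`: `Att.kill` with
`q₂ + ofReal (cu (ur + uL))` (where this is less than `q₂ + 1`, `ur + uL < 1`), `VlrStmt`;
`cu u ≤ val`. At the start `K = ∅`, `S = S₀`, `u = 0`, `n = ⌈S₀ / ρ⌉`. -/
def PhsStmt : Prop :=
  ∀ (ε₀ lam C B : ℝ), 0 < lam → lam ≤ 1 → 1 ≤ C → 1 ≤ B → Kr1Body ε₀ lam C B →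
    ∀ (X : Type) [Fintype X] [DecidableEq X] (Y : Sys X) (T₀ : Cfg X) (P : Pha X)
    (R' Q' : Finset X) (v : X → ℝ) (Fin : Cfg X → Prop) (q₂ : ℝ≥0∞), P.Ok Y T₀ → P.ε ≤ ε₀ →
    C * P.δ ^ 2 * Real.sqrt (1 / P.t₀ * Real.sqrt (1 / P.t₀ * P.Lc)) / P.g₀ * P.s ≤
      lam * P.ρ / 20 → P.R ⊆ R' → 0 ≤ P.S₀ →
    (∀ K T, P.Rch Y T₀ K T → ∀ D ⊆ P.R \ K, ∃ Gm kp, Run Y T D P.s P.mb Gm kp) →
    (∀ K T, P.Post Y T₀ K T → (∀ x ∈ P.R \ K, aa (Y.k T) (Y.G T) P.o x ≤ 2 * P.t₁) →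
      Att R' Q' v Fin T q₂) →
      Att R' Q' v Fin T₀ (q₂ + ENNReal.ofReal (Real.exp (2 * lam - lam * P.S₀ / 20) +
        (P.S₀ / P.ρ + 1) * (Real.exp (2 * lam) * (2 * B) * P.bt +
          9 * (1 + P.R.card) * Real.exp (-(P.jL : ℝ) / 5))))

/-- CTR (uses UDR, UEN, GAR, RCM): one run which kills the set `D`. Proof: `Uf3Stmt` for `ur` (`Φ = 0`,
`ρ = 0`, `C₁ = 1`, `B = 3`, `b = bt / (3 s)`): `∫ cu (ur (s)) ≤ cu (ur (0)) + bt`, `ur (0) ≤ u ∅ = 0` at the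
start. `Att.kill` with `q₂ + ofReal (cu (ur ..))`; if `ur < 1` then `Post` (`UenStmt` at the time `s`,
`K = ∅`). -/
def CtrStmt : Prop :=
  ∀ (X : Type) [Fintype X] [DecidableEq X] (Y : Sys X) (T₀ : Cfg X) (P : Pha X)
    (D R' Q' : Finset X) (v : X → ℝ) (Fin : Cfg X → Prop) (q₂ : ℝ≥0∞)
    (Gm : ℝ × (D → ℝ) → Matrix X X ℂ) (kp : ℝ → X → ℝ), P.Ok0 Y T₀ → P.R ⊆ R' → D ⊆ P.R →
    (D.card : ℝ) ≤ P.nK → Run Y T₀ D P.s P.mb Gm kp →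
    (∀ T, P.Post Y T₀ D T → Att R' Q' v Fin T q₂) →
      Att R' Q' v Fin T₀ (q₂ + ENNReal.ofReal P.bt)

end Pool.Agent.KIL
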